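import Pool.Agent.H98.Code.Minor

set_option autoImplicit false

/-!
The side interface for rooted codes (MP_a46c6f_co, full Q1): own edges of the side without the root.
-/

namespace Pool.Agent.H77.Q

open Pool.Agent.H98.Code

variable {X : Type}

/-- `u` contains no smaller word -/
def Irr (B : Submodule (ZMod 2) (X → K)) (u : X → K) : Prop :=
  ∀ d ∈ B, (∀ v, d v = 0 ∨ d v = u v) → d = 0 ∨ d = u

/-- `S u Y`: `Y` is the set of own places of the side of `u` which does not contain the root `e` -/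
structure RSides (B : Submodule (ZMod 2) (X → K)) (e : X) (S : (X → K) → Finset X → Prop) :
    Prop where
  root : ∀ u Y, S u Y → e ∉ Y
  zero : ∀ u Y, S u Y → ∀ v ∈ Y, u v = 0
  ex : ∀ u ∈ B, ZFree u → u e = 0 → u ≠ 0 → Irr B u →
    (∃ g, Splits B u g) ∨ ∃ Y, Y.Nonempty ∧ S u Y
  part : ∀ u Y, S u Y → ∀ k ∈ B, (∀ v, u v ≠ 0 → k v = 0 ∨ k v = u v) →
    ∃ k' ∈ B, (∀ v ∈ Y, k' v = k v) ∧ (∀ v, u v = 0 → v ∉ Y → k' v = 0) ∧
      (∀ v, u v ≠ 0 → k' v = 0 ∨ k' v = u v)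
  mono : ∀ u Y, S u Y → Irr B u → ∀ k ∈ B, ZFree k → k ≠ 0 → Irr B k →
    (∀ v, u v ≠ 0 → k v = 0 ∨ k v = u v) → (∀ v, u v = 0 → v ∉ Y → k v = 0) →
    (∃ g, Splits B k g) ∨ ∃ Y', Y' ⊆ Y ∧ Y'.Nonempty ∧ S k Y'

end Pool.Agent.H77.Q
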