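import Pool.Agent.H77.P3.CodeSide
import Pool.Agent.H77.Q.Defs

set_option autoImplicit false

/-!
Rooted codes with sides (MP_a46c6f_co, full Q1): the kernel, the inverse matrix, the words `r x`.
-/

namespace Pool.Agent.H77.Q

open Pool.Agent.H98.Code Pool.Agent.H17.TR Pool.Agent.H17.P3 Pool.Agent.H77.P3

section
variable {V : Type} [Fintype V] {B : Submodule (ZMod 2) (V → K)} {H : V → V → ZMod 2}

/-- the full word -/
def om (H : V → V → ZMod 2) : V → K := fun v => (1, deg H v)

theorem om_mem (hH : IsMat B H) : om H ∈ B := by
  have h := word_mem hH (fun _ => 1)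
  have h0 : ∀ v, lap H (fun _ => 1) v = 0 := by
    intro v
    unfold lap
    apply Finset.sum_eq_zero
    intro w _
    rw [show (1 : ZMod 2) + 1 = 0 from by decide, mul_zero]
  have : (fun v => ((1, deg H v * 1 + lap H (fun _ => 1) v) : K)) = om H := by
    funext v
    rw [h0 v, mul_one, add_zero]
    rfl
  rw [← this]
  exact h

/-- a word below the full word does not split -/
theorem om_not_split (hL : IsCode B) (hH : IsMat B H) {u : V → K}
    (hu : ∀ v, u v = 0 ∨ u v = om H v) (g : V) : ¬ Splits B u g := by
  rintro ⟨c₁, hc₁, c₂, hc₂, hs, hg1, hg2, hd⟩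
  have hf := hL.iso c₁ hc₁ _ (om_mem hH)
  unfold form at hf
  rw [Finset.sum_eq_single g] at hf
  · rw [hg1] at hf
    revert hf
    simp [kf, z, om]
  · intro v _ hvg
    have hsv : c₁ v + c₂ v = u v := congrFun hs v
    have h1 : c₁ v = 0 ∨ c₁ v = om H v := by
      rcases hd v hvg with h1 | h1
      · exact Or.inl h1
      · rw [h1, add_zero] at hsv
        rw [hsv]
        exact hu v
    rcases h1 with h1 | h1
    · rw [h1]
      simp [kf]
    · rw [h1]
      simp only [kf, om]
      generalize deg H v = a
      revert a
      decide
  · intro hh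
    exact absurd (Finset.mem_univ g) hh

theorem kadd_self (a : K) : a + a = 0 := by
  revert a
  decide

theorem kadd_eq_zero {a b : K} (h : a + b = 0) : a = b := by
  revert a b
  decide

/-- an irreducible word below `κ` through `y` -/
theorem exists_irr [DecidableEq V] (y : V) : ∀ (n : ℕ) (κ : V → K), κ ∈ B → κ y ≠ 0 →
    (Finset.univ.filter fun v => κ v ≠ 0).card ≤ n →
    ∃ κ' ∈ B, κ' y ≠ 0 ∧ Irr B κ' ∧ ∀ v, κ' v = 0 ∨ κ' v = κ v := by
  intro n
  induction n with
  | zero =>
    intro κ _ hy hc
    exfalso
    have : y ∈ Finset.univ.filter fun v => κ v ≠ 0 := Finset.mem_filter.2 ⟨Finset.mem_univ _, hy⟩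
    rw [Finset.card_eq_zero.1 (Nat.le_zero.1 hc)] at this
    exact absurd this (Finset.notMem_empty _)
  | succ n ih =>
    intro κ hκ hy hc
    by_cases hI : Irr B κ
    · exact ⟨κ, hκ, hy, hI, fun v => Or.inr rfl⟩
    · unfold Irr at hI
      push Not at hI
      obtain ⟨d, hd, hd1, hd2, hd3⟩ := hI
      -- a smaller word
      have key : ∀ e : V → K, e ∈ B → (∀ v, e v = 0 ∨ e v = κ v) → e ≠ κ → e y ≠ 0 →
          ∃ κ' ∈ B, κ' y ≠ 0 ∧ Irr B κ' ∧ ∀ v, κ' v = 0 ∨ κ' v = κ v := by
        intro e he he1 he2 he3
        have hlt : (Finset.univ.filter fun v => e v ≠ 0).card <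
            (Finset.univ.filter fun v => κ v ≠ 0).card := by
          apply Finset.card_lt_card
          rw [Finset.ssubset_iff_of_subset]
          · by_contra hno
            push Not at hno
            apply he2
            funext v
            rcases he1 v with h1 | h1
            · by_cases hk : κ v = 0
              · rw [h1, hk]
              · have := hno v (Finset.mem_filter.2 ⟨Finset.mem_univ _, hk⟩)
                exact absurd h1 (Finset.mem_filter.1 this).2
            · exact h1
          · intro v hv
            have h1 := (Finset.mem_filter.1 hv).2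
            refine Finset.mem_filter.2 ⟨Finset.mem_univ _, ?_⟩
            intro h0
            rcases he1 v with h2 | h2
            · exact h1 h2
            · exact h1 (h2.trans h0)
        obtain ⟨κ', a1, a2, a3, a4⟩ := ih e he he3 (by omega)
        refine ⟨κ', a1, a2, a3, ?_⟩
        intro v
        rcases a4 v with h1 | h1
        · exact Or.inl h1
        · rw [h1]
          exact he1 v
      by_cases hdy : d y = 0
      · refine key (κ + d) (B.add_mem hκ hd) ?_ ?_ ?_
        · intro v
          rw [Pi.add_apply]
          rcases hd1 v with h1 | h1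
          · right
            rw [h1, add_zero]
          · left
            rw [h1, kadd_self]
        · intro h0
          apply hd2
          have : κ + d + κ = κ + κ := by rw [h0]
          funext v
          have h1 := congrFun this v
          simp only [Pi.add_apply] at h1
          rw [kadd_self, add_comm, ← add_assoc, kadd_self, zero_add] at h1
          exact h1
        · rw [Pi.add_apply, hdy, add_zero]
          exact hy
      · exact key d hd hd1 hd3 hdy

variable [DecidableEq V] {e : V} {S : (V → K) → Finset V → Prop}

/-- the kernel -/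
theorem kernel (hL : IsCode B) (hH : IsMat B H) (hS : RSides B e S) {u : V → K} (hu : u ∈ B)
    (hue : u e = 0) (hk : ∀ v, u v = 0 ∨ u v = om H v) : u = 0 := by
  have hom0 : ∀ v, om H v ≠ 0 := by
    intro v h0
    exact absurd (congrArg Prod.fst h0) (by simp [om])
  have homz : ∀ v, om H v ≠ z := by
    intro v h0
    exact absurd (congrArg Prod.fst h0) (by simp [om, z])
  have hzf : ∀ κ : V → K, (∀ v, κ v = 0 ∨ κ v = om H v) → ZFree κ := by
    intro κ hκ v hv
    rcases hκ v with h1 | h1
    · rw [h1] at hv
      exact absurd hv (by decide)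
    · exact homz v (h1.symm.trans hv)
  have main : ∀ (n : ℕ) (κ : V → K) (Y : Finset V), Y.card ≤ n → κ ∈ B →
      (∀ v, κ v = 0 ∨ κ v = om H v) → κ e = 0 → Irr B κ → S κ Y → ¬ Y.Nonempty := by
    intro n
    induction n with
    | zero =>
      intro κ Y hY _ _ _ _ _ hne
      rw [Finset.card_eq_zero.1 (Nat.le_zero.1 hY)] at hne
      exact absurd hne Finset.not_nonempty_empty
    | succ n ih =>
      intro κ Y hY hκ hκo hκe hI hSY hne
      obtain ⟨y, hy⟩ := hne
      obtain ⟨ω', hω', w1, w2, w3⟩ := hS.part κ Y hSY (om H) (om_mem hH) (by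
        intro v hv
        rcases hκo v with h1 | h1
        · exact absurd h1 hv
        · exact Or.inr h1.symm)
      have hω'o : ∀ v, ω' v = 0 ∨ ω' v = om H v := by
        intro v
        by_cases hv : v ∈ Y
        · exact Or.inr (w1 v hv)
        · by_cases hv2 : κ v = 0
          · exact Or.inl (w2 v hv2 hv)
          · rcases w3 v hv2 with h1 | h1
            · exact Or.inl h1
            · right
              rw [h1]
              exact (hκo v).resolve_left hv2
      obtain ⟨κ', k1, k2, k3, k4⟩ := exists_irr y _ ω' hω' (by rw [w1 y hy]; exact hom0 y) le_rfl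
      have hκ'o : ∀ v, κ' v = 0 ∨ κ' v = om H v := by
        intro v
        rcases k4 v with h1 | h1
        · exact Or.inl h1
        · rw [h1]
          exact hω'o v
      have heY := hS.root κ Y hSY
      have hω'e : ω' e = 0 := w2 e hκe heY
      have hκ'e : κ' e = 0 := by
        rcases k4 e with h1 | h1
        · exact h1
        · rw [h1, hω'e]
      have hmono := hS.mono κ Y hSY hI κ' k1 (hzf κ' hκ'o) (fun h0 => k2 (by rw [h0]; rfl)) k3
        (by
          intro v hv
          rcases k4 v with h1 | h1
          · exact Or.inl h1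
          · rw [h1]
            exact w3 v hv)
        (by
          intro v hv hvY
          rcases k4 v with h1 | h1
          · exact h1
          · rw [h1]
            exact w2 v hv hvY)
      rcases hmono with ⟨g, hg⟩ | ⟨Y', hY', hne', hSY'⟩
      · exact om_not_split hL hH hκ'o g hg
      · have hyY' : y ∉ Y' := fun h0 => k2 (hS.zero κ' Y' hSY' y h0)
        have hlt : Y'.card < Y.card := by
          apply Finset.card_lt_card
          rw [Finset.ssubset_iff_of_subset hY']
          exact ⟨y, hy, hyY'⟩
        exact ih κ' Y' (by omega) k1 hκ'o hκ'e k3 hSY' hne'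
  by_contra h0
  obtain ⟨y, hy⟩ : ∃ y, u y ≠ 0 := by
    by_contra hno
    push Not at hno
    exact h0 (funext hno)
  obtain ⟨κ, k1, k2, k3, k4⟩ := exists_irr y _ u hu hy le_rfl
  have hκo : ∀ v, κ v = 0 ∨ κ v = om H v := by
    intro v
    rcases k4 v with h1 | h1
    · exact Or.inl h1
    · rw [h1]
      exact hk v
  have hκe : κ e = 0 := by
    rcases k4 e with h1 | h1
    · exact h1
    · rw [h1, hue]
  rcases hS.ex κ k1 (hzf κ hκo) hκe (fun h0 => k2 (by rw [h0]; rfl)) k3 with ⟨g, hg⟩ | ⟨Y, hY, hSY⟩
  · exact om_not_split hL hH hκo g hg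
  · exact main _ κ Y le_rfl k1 hκo hκe k3 hSY hY

/-- the reduced Laplacian is injective -/
theorem inj' (hL : IsCode B) (hH : IsMat B H) (hS : RSides B e S)
    (p : V → ZMod 2) (he : p e = 0) (h0 : ∀ v, v ≠ e → lap H p v = 0) : p = 0 := by
  have hle : lap H p e = 0 := by
    have h1 := lap_sum hH.sym p
    rw [← Finset.add_sum_erase _ _ (Finset.mem_univ e)] at h1
    rw [Finset.sum_eq_zero (s := Finset.univ.erase e)
      (fun v hv => h0 v (Finset.ne_of_mem_erase hv)), add_zero] at h1
    exact h1
  have hl : ∀ v, lap H p v = 0 := by
    intro v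
    by_cases hv : v = e
    · rw [hv, hle]
    · exact h0 v hv
  have h1 := kernel hL hH hS (word_mem hH p) (by
      show ((p e, deg H e * p e + lap H p e) : K) = 0
      rw [he, hle, mul_zero, add_zero]
      rfl)
    (by
      intro v
      show ((p v, deg H v * p v + lap H p v) : K) = 0 ∨
        ((p v, deg H v * p v + lap H p v) : K) = om H v
      rw [hl v, add_zero]
      unfold om
      rcases z2 (p v) with h2 | h2
      · left
        rw [h2, mul_zero]
        rfl
      · right
        rw [h2, mul_one])
  funext v
  exact congrArg Prod.fst (congrFun h1 v)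

/-- the inverse of the reduced Laplacian -/
theorem exists_inv' (hL : IsCode B) (hH : IsMat B H) (hS : RSides B e S) :
    ∃ M : V → V → ZMod 2, (∀ x y, M x y = M y x) ∧ (∀ x, M e x = 0) ∧
      (∀ u, u ≠ e → ∀ v, lap H (fun w => M w v) u = if u = v then 1 else 0) := by
  have hsurj : Function.Surjective
      (fun (p : V → ZMod 2) (v : V) => if v = e then p e else lap H p v) := by
    rw [← Finite.injective_iff_surjective]
    intro p q hpq
    have hpe : p e = q e := by
      have := congrFun hpq e
      simpa using this
    have h1 : p + q = 0 := by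
      apply inj' hL hH hS
      · rw [Pi.add_apply, hpe, CharTwo.add_self_eq_zero]
      · intro v hv
        have := congrFun hpq v
        simp only [if_neg hv] at this
        rw [lap_add, this, CharTwo.add_self_eq_zero]
    funext v
    have h2 := congrFun h1 v
    rw [Pi.add_apply, Pi.zero_apply] at h2
    revert h2
    generalize p v = a
    generalize q v = b
    revert a b
    decide
  choose m hm using fun y : V => hsurj (fun v => if v = e then 0 else if v = y then 1 else 0)
  have hme : ∀ y, m y e = 0 := by
    intro y
    have := congrFun (hm y) e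
    simpa using this
  have hml : ∀ y v, v ≠ e → lap H (m y) v = if v = y then 1 else 0 := by
    intro y v hv
    have := congrFun (hm y) v
    simpa only [if_neg hv] using this
  have hme' : ∀ v, m e v = 0 := by
    intro v
    have : m e = 0 := by
      apply inj' hL hH hS _ (hme e)
      intro v hv
      rw [hml e v hv, if_neg hv]
    rw [this]
    rfl
  have hsy : ∀ x y, m x y = m y x := by
    intro x y
    by_cases hx : x = e
    · rw [hx, hme', hme]
    by_cases hy : y = e
    · rw [hy, hme', hme]
    have h1 := lap_adj hH.sym (m y) (m x)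
    have h2 : ∑ v, m x v * lap H (m y) v = m x y := by
      rw [Finset.sum_eq_single y]
      · rw [hml y y hy, if_pos rfl, mul_one]
      · intro v _ hv
        by_cases hve : v = e
        · rw [hve, hme, zero_mul]
        · rw [hml y v hve, if_neg hv, mul_zero]
      · intro hh
        exact absurd (Finset.mem_univ y) hh
    have h3 : ∑ v, lap H (m x) v * m y v = m y x := by
      rw [Finset.sum_eq_single x]
      · rw [hml x x hx, if_pos rfl, one_mul]
      · intro v _ hv
        by_cases hve : v = e
        · rw [hve, hme, mul_zero]
        · rw [hml x v hve, if_neg hv, zero_mul]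
      · intro hh
        exact absurd (Finset.mem_univ x) hh
    rw [← h2, ← h3, h1]
  refine ⟨fun x y => m y x, fun x y => hsy y x, fun x => hme x, ?_⟩
  intro u hu v
  exact hml v u hu

end

end Pool.Agent.H77.Q
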