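import Pool.Agent.H77.Q.Own
import Pool.Agent.H81.P4.Main
import Pool.Agent.H62.Ind.P3

set_option autoImplicit false

/-!
Rooted codes with sides (MP_a46c6f_co, full Q1): the inverse matrix has `Pairs` and `P4Split`.
-/

namespace Pool.Agent.H77.Q

open Pool.Agent.H98.Code Pool.Agent.H17.TR Pool.Agent.H17.P3 Pool.Agent.H77.P3

section
variable {V : Type} [Fintype V] [DecidableEq V] {B : Submodule (ZMod 2) (V → K)}
  {H : V → V → ZMod 2} {e : V} {S : (V → K) → Finset V → Prop} {M : V → V → ZMod 2}

theorem eq_z_of {u : V → K} {w : V} (h1 : (u w).1 = 0) (h2 : tt H u w = 1) : u w = z := by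
  unfold tt at h2
  rw [h1, mul_zero, add_zero] at h2
  exact Prod.ext h1 h2

/-- a splitting of a closed pair gives a midpoint -/
theorem pair_split (C : Ctx B H e S M) {a b : V} (h : CP M a b) {g : V}
    (hg : Splits B (pw M H e a b) g) :
    ∃ c ∈ B, c g = z ∧ (∀ v, v ≠ g → c v = 0 ∨ c v = pw M H e a b v) ∧ g ≠ a ∧ g ≠ b ∧
      M g g = M a b ∧ M g a = M a b ∧ M g b = M a b ∧ ∀ w, M a w = M b w → M g w = M a w := by
  have hT := pw_isT C h
  have hab := h.ab
  obtain ⟨c, hc, c1, c2, hgT, σ, s1, s2, s3⟩ := halves C hT hg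
  rw [Finset.mem_insert, Finset.mem_singleton, not_or] at hgT
  rw [Finset.sum_pair hab] at s1
  have ea := s2 a (by simp)
  have eb := s2 b (by simp)
  rw [Finset.sum_pair hab, C.hM a g] at ea
  rw [Finset.sum_pair hab, C.hM b a, ← h.eq, C.hM b g] at eb
  have hne := h.ne
  have f1 : ∀ x y p s t : ZMod 2, s + t = 1 → x * s + y * t + p = s → y ≠ x → p = y := by decide
  have f2 : ∀ x y q s t : ZMod 2, s + t = 1 → y * s + x * t + q = t → y ≠ x → q = y := by decide
  have hgab : M g a = M a b ∧ M g b = M a b := ⟨f1 _ _ _ _ _ s1 ea hne, f2 _ _ _ _ _ s1 eb hne⟩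
  have agree : ∀ w, M a w = M b w → M g w = M a w := by
    intro w hw
    have hwT : w ∉ ({a, b} : Finset V) := by
      intro hw'
      rcases Finset.mem_insert.1 hw' with rfl | hw'
      · exact h.ne (by rw [hw, C.hM b w])
      · rw [Finset.mem_singleton] at hw'
        subst hw'
        exact h.ne (by rw [hw, h.eq])
    have hu0 : pw M H e a b w = 0 := by
      apply eq_zero_of (H := H)
      · rw [pw_fst, C.hM w a, C.hM w b, hw]
        exact CharTwo.add_self_eq_zero _
      · exact hT.tout w hwT
    have h4 := s3 w hu0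
    rw [Finset.sum_pair hab, C.hM w a, C.hM w b, ← hw, C.hM w g] at h4
    clear s2 s3 ea eb
    revert h4 s1
    generalize M a w = x
    generalize M g w = y
    generalize σ a = s
    generalize σ b = t
    revert x y s t
    decide
  refine ⟨c, hc, c1, c2, hgT.1, hgT.2, ?_, hgab.1, hgab.2, agree⟩
  have h5 := agree g (by rw [C.hM a g, C.hM b g, hgab.1, hgab.2])
  rw [h5, C.hM a g, hgab.1]

/-- a splitting of a path gives a bad point -/
theorem p4_split (C : Ctx B H e S M) {a b c d : V} (h : PP M a b c d) {g : V}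
    (hg : Splits B (qw M H e a b c d) g) :
    ∃ k ∈ B, k g = z ∧ (∀ v, v ≠ g → k v = 0 ∨ k v = qw M H e a b c d v) ∧
      Bad M a b c d g ∧
      ∀ w, M a w = M b w → M a w = M c w → M a w = M d w → M g w = M a w := by
  have hT := qw_isT C h
  have D := h.dist C
  obtain ⟨⟨hab, hbc, hcd, hac, had, hbd⟩, haa, hbb, hcc, hdd⟩ := h
  obtain ⟨k, hk, k1, k2, hgT, σ, s1, s2, s3⟩ := halves C hT hg
  rw [sum4 D] at s1
  have ea := s2 a (by simp)
  have eb := s2 b (by simp)
  have ec := s2 c (by simp)
  have ed := s2 d (by simp)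
  rw [sum4 D, haa, hab, hac, had, C.hM a g] at ea
  rw [sum4 D, C.hM b a, hab, hbb, hbc, hbd, C.hM b g] at eb
  rw [sum4 D, C.hM c a, C.hM c b, hac, hbc, hcc, hcd, C.hM c g] at ec
  rw [sum4 D, C.hM d a, C.hM d b, C.hM d c, had, hbd, hcd, hdd, C.hM d g] at ed
  refine ⟨k, hk, k1, k2, ⟨?_, ?_⟩, ?_⟩
  · clear eb ec s2 s3
    revert ea ed s1
    generalize M g a = x
    generalize M g d = y
    generalize σ a = s
    generalize σ b = t
    generalize σ c = p
    generalize σ d = q
    revert x y s t p q
    decide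
  · clear ea ed s2 s3
    revert eb ec s1
    generalize M g b = x
    generalize M g c = y
    generalize σ a = s
    generalize σ b = t
    generalize σ c = p
    generalize σ d = q
    revert x y s t p q
    decide
  · intro w w1 w2 w3
    have hwT : w ∉ ({a, b, c, d} : Finset V) := by
      intro hw
      simp only [Finset.mem_insert, Finset.mem_singleton] at hw
      rcases hw with rfl | rfl | rfl | rfl
      · rw [haa, C.hM b w, hab] at w1
        exact n01 w1
      · rw [hab, C.hM d w, hbd] at w3
        exact n01 w3.symm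
      · rw [hac, hcc] at w2
        exact n01 w2
      · rw [had, hcd] at w2
        exact n01 w2
    have hw0 : qw M H e a b c d w = 0 := by
      apply eq_zero_of (H := H)
      · rw [qw_fst, C.hM w a, C.hM w b, C.hM w c, C.hM w d, ← w1, ← w2, ← w3]
        generalize M a w = x
        revert x
        decide
      · exact hT.tout w hwT
    have e4 := s3 w hw0
    rw [sum4 D, C.hM w a, C.hM w b, C.hM w c, C.hM w d, ← w1, ← w2, ← w3, C.hM w g] at e4
    clear ea eb ec ed s2 s3
    revert e4 s1
    generalize M a w = x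
    generalize M g w = y
    generalize σ a = s
    generalize σ b = t
    generalize σ c = p
    generalize σ d = q
    revert x y s t p q
    decide

/-- **closed pairs split** -/
theorem pair_main (C : Ctx B H e S M) : ∀ (n : ℕ) (a b : V) (Y : Finset V), CP M a b →
    Y.card ≤ n → S (pw M H e a b) Y → Y.Nonempty → ∃ g, Splits B (pw M H e a b) g := by
  intro n
  induction n with
  | zero =>
    intro a b Y _ hY _ hne
    rw [Finset.card_eq_zero.1 (Nat.le_zero.1 hY)] at hne
    exact absurd hne Finset.not_nonempty_empty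
  | succ n ih =>
    intro a b Y h hcard hY hne
    by_contra hns
    have hT := pw_isT C h
    have hab := h.ab
    have hY0 := C.hS.zero _ Y hY
    have heY := C.hS.root _ Y hY
    have hYne : ∀ v ∈ Y, v ≠ a ∧ v ≠ b ∧ v ≠ e := by
      intro v hv
      refine ⟨?_, ?_, ?_⟩
      · rintro rfl
        exact hT.ne v (by simp) (hY0 v hv)
      · rintro rfl
        exact hT.ne v (by simp) (hY0 v hv)
      · rintro rfl
        exact heY hv
    have A1 : ∀ y ∈ Y, M y a = M a b := fun y hy => (pair_own C h hY hy).1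
    have A2 : ∀ y ∈ Y, M y b = M a b := fun y hy => (pair_own C h hY hy).2.1
    have A3 : ∀ y ∈ Y, ∀ w, pw M H e a b w = 0 → w ∉ Y → M w y = M w a := fun y hy =>
      (pair_own C h hY hy).2.2
    -- zero places
    have hz0 : ∀ g, M g a = M a b → M g b = M a b → pw M H e a b g = 0 := by
      intro g g1 g2
      have hga : g ≠ a := by
        rintro rfl
        exact h.ne g1.symm
      have hgb : g ≠ b := by
        rintro rfl
        exact h.ne (g2.symm.trans h.eq.symm)
      apply eq_zero_of (H := H)
      · rw [pw_fst, g1, g2]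
        exact CharTwo.add_self_eq_zero _
      · rw [pw_tt, if_neg hga, if_neg hgb, add_zero]
    -- the splitting points lie in `Y`
    have inY : ∀ (k c : V → K) (g : V), c ∈ B → c g = z → (∀ v, v ≠ g → c v = 0 ∨ c v = k v) →
        (∀ v, pw M H e a b v ≠ 0 → k v = 0 ∨ k v = pw M H e a b v) →
        (∀ v, pw M H e a b v = 0 → v ∉ Y → k v = 0) → M g a = M a b → M g b = M a b → g ∈ Y := by
      intro k c g hc hcg hck hk1 hk2 g1 g2
      by_contra hgY
      have hug := hz0 g g1 g2
      apply hns
      refine ⟨g, kpart C hT.mem hY hc ?_ hug hgY hcg ?_⟩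
      · intro v hv
        have hvg : v ≠ g := by
          rintro rfl
          exact hv hug
        rcases hck v hvg with h1 | h1
        · exact Or.inl h1
        · rw [h1]
          exact hk1 v hv
      · intro w hw hwY hwg
        rcases hck w hwg with h1 | h1
        · exact h1
        · rw [h1]
          exact hk2 w hw hwY
    -- words inside
    have pin : ∀ x ∈ Y, ∀ y ∈ Y,
        (∀ v, pw M H e a b v ≠ 0 → pw M H e x y v = 0 ∨ pw M H e x y v = pw M H e a b v) ∧
        (∀ v, pw M H e a b v = 0 → v ∉ Y → pw M H e x y v = 0) := by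
      intro x hx y hy
      constructor
      · apply hT.below
        · intro v hv
          rw [pw_fst, pw_tt]
          rcases Finset.mem_insert.1 hv with rfl | hv
          · rw [C.hM v x, C.hM v y, A1 x hx, A1 y hy, if_neg (Ne.symm (hYne x hx).1),
              if_neg (Ne.symm (hYne y hy).1), add_zero]
            exact CharTwo.add_self_eq_zero _
          · rw [Finset.mem_singleton] at hv
            subst hv
            rw [C.hM v x, C.hM v y, A2 x hx, A2 y hy, if_neg (Ne.symm (hYne x hx).2.1),
              if_neg (Ne.symm (hYne y hy).2.1), add_zero]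
            exact CharTwo.add_self_eq_zero _
        · intro v _ hv
          rw [pw_tt, if_neg, if_neg, add_zero]
          · rintro rfl
            exact hv (hY0 v hy)
          · rintro rfl
            exact hv (hY0 v hx)
      · intro v hv hvY
        apply eq_zero_of (H := H)
        · rw [pw_fst, A3 x hx v hv hvY, A3 y hy v hv hvY]
          exact CharTwo.add_self_eq_zero _
        · rw [pw_tt, if_neg, if_neg, add_zero]
          · rintro rfl
            exact hvY hy
          · rintro rfl
            exact hvY hx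
    have qin : ∀ x ∈ Y, ∀ y ∈ Y, ∀ s ∈ Y, ∀ t ∈ Y,
        (∀ v, pw M H e a b v ≠ 0 → qw M H e x y s t v = 0 ∨
          qw M H e x y s t v = pw M H e a b v) ∧
        (∀ v, pw M H e a b v = 0 → v ∉ Y → qw M H e x y s t v = 0) := by
      intro x hx y hy s hs t ht
      have hxn : ∀ v, v ∉ Y → ∀ w ∈ Y, v ≠ w := by
        intro v hv w hw h0
        exact hv (h0 ▸ hw)
      have hstt : ∀ v, v ∉ Y → tt H (qw M H e x y s t) v = 0 := by
        intro v hv
        rw [qw_tt, if_neg (hxn v hv x hx), if_neg (hxn v hv y hy), if_neg (hxn v hv s hs),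
          if_neg (hxn v hv t ht)]
        decide
      have haY : a ∉ Y := fun h0 => (hYne a h0).1 rfl
      have hbY : b ∉ Y := fun h0 => (hYne b h0).2.1 rfl
      constructor
      · apply hT.below
        · intro v hv
          rw [qw_fst]
          rcases Finset.mem_insert.1 hv with rfl | hv
          · rw [hstt v haY, C.hM v x, C.hM v y, C.hM v s, C.hM v t, A1 x hx, A1 y hy, A1 s hs,
              A1 t ht]
            generalize M v b = x
            revert x
            decide
          · rw [Finset.mem_singleton] at hv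
            subst hv
            rw [hstt v hbY, C.hM v x, C.hM v y, C.hM v s, C.hM v t, A2 x hx, A2 y hy, A2 s hs,
              A2 t ht]
            generalize M a v = x
            revert x
            decide
        · intro v _ hv
          exact hstt v (fun h0 => hv (hY0 v h0))
      · intro v hv hvY
        apply eq_zero_of (H := H)
        · rw [qw_fst, A3 x hx v hv hvY, A3 y hy v hv hvY, A3 s hs v hv hvY, A3 t ht v hv hvY]
          generalize M v a = x
          revert x
          decide
        · exact hstt v hvY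
    -- the matrix on `Y`
    let N : {v // v ∈ Y} → {v // v ∈ Y} → ZMod 2 := fun x y => M x.1 y.1
    have hNs : ∀ x y, N x y = N y x := fun x y => C.hM _ _
    have hNp : Pairs N := by
      rintro ⟨x, hx⟩ ⟨y, hy⟩ h1 h2
      have hp : CP M x y := ⟨h1, h2⟩
      obtain ⟨k1, k2⟩ := pin x hx y hy
      have hTk := pw_isT C hp
      have hsp : ∃ g, Splits B (pw M H e x y) g := by
        rcases C.hS.mono _ Y hY (pw_irr C h) _ hTk.mem hTk.zfree (hTk.ne_zero ⟨x, by simp⟩)
          (pw_irr C hp) k1 k2 with h3 | ⟨Y', hY', hne', hSY'⟩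
        · exact h3
        · have hxY' : x ∉ Y' := fun h0 => hTk.ne x (by simp) (C.hS.zero _ Y' hSY' x h0)
          have hlt : Y'.card < Y.card := by
            apply Finset.card_lt_card
            rw [Finset.ssubset_iff_of_subset hY']
            exact ⟨x, hx, hxY'⟩
          exact ih x y Y' hp (by omega) hSY' hne'
      obtain ⟨g, hg⟩ := hsp
      obtain ⟨c, hc, c1, c2, -, -, g1, g2, g3, g4⟩ := pair_split C hp hg
      have hga : M g a = M a b := by
        rw [g4 a (by rw [A1 x hx, A1 y hy]), A1 x hx]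
      have hgb : M g b = M a b := by
        rw [g4 b (by rw [A2 x hx, A2 y hy]), A2 x hx]
      have hgY := inY _ c g hc c1 c2 k1 k2 hga hgb
      refine ⟨⟨g, hgY⟩, ?_, ?_, ?_, ?_⟩
      · show M g g ≠ M x x
        rw [g1]
        exact h2
      · show M g x = M g g
        rw [g1, g2]
      · show M g y = M g g
        rw [g1, g3]
      · intro w hw
        exact g4 w.1 hw
    have hNq : P4Split N := by
      rintro ⟨x, hx⟩ ⟨y, hy⟩ ⟨s, hs⟩ ⟨t, ht⟩ hp h1 h2 h3 h4
      have hp' : PP M x y s t := ⟨⟨hp.ab, hp.bc, hp.cd, hp.ac, hp.ad, hp.bd⟩, h1, h2, h3, h4⟩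
      obtain ⟨k1, k2⟩ := qin x hx y hy s hs t ht
      have hTk := qw_isT C hp'
      rcases C.hS.mono _ Y hY (pw_irr C h) _ hTk.mem hTk.zfree (hTk.ne_zero ⟨x, by simp⟩)
        (qw_irr C hp') k1 k2 with ⟨g, hg⟩ | ⟨Y', hY', hne', hSY'⟩
      · obtain ⟨c, hc, c1, c2, g1, g2⟩ := p4_split C hp' hg
        have hga : M g a = M a b := by
          rw [g2 a (by rw [A1 x hx, A1 y hy]) (by rw [A1 x hx, A1 s hs])
            (by rw [A1 x hx, A1 t ht]), A1 x hx]
        have hgb : M g b = M a b := by
          rw [g2 b (by rw [A2 x hx, A2 y hy]) (by rw [A2 x hx, A2 s hs])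
            (by rw [A2 x hx, A2 t ht]), A2 x hx]
        have hgY := inY _ c g hc c1 c2 k1 k2 hga hgb
        exact ⟨⟨g, hgY⟩, g1, fun w w1 w2 w3 => g2 w.1 w1 w2 w3⟩
      · obtain ⟨g, hg⟩ := hne'
        obtain ⟨g1, g2⟩ := p4_own C hp' hSY' hg
        exact ⟨⟨g, hY' hg⟩, g1, fun w w1 w2 w3 => g2 w.1 w1 w2 w3⟩
    have hN4 : ∀ a b c d, ¬ IsP4 N a b c d := Pool.Agent.H62.Ind.p3 _ N hNs hNp hNq
    have : Nonempty {v // v ∈ Y} := by
      obtain ⟨y, hy⟩ := hne
      exact ⟨⟨y, hy⟩⟩
    obtain ⟨r, hr, lam, hlam⟩ : ∃ r ∈ Y, ∃ lam : ZMod 2, ∀ v ∈ Y, M r v = lam := by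
      rcases Pool.Agent.H81.P4.iso_or_full hNs hNp hN4 with ⟨⟨r, hr⟩, h0⟩ | ⟨⟨r, hr⟩, h0⟩
      · exact ⟨r, hr, 0, fun v hv => h0 ⟨v, hv⟩⟩
      · exact ⟨r, hr, 1, fun v hv => h0 ⟨v, hv⟩⟩
    obtain ⟨nr1, nr2, nr3⟩ := hYne r hr
    -- the word of `r` and `a`
    have hb : ∀ v, pw M H e a b v ≠ 0 → pw M H e r a v = 0 ∨ pw M H e r a v = pw M H e a b v := by
      apply hT.below
      · intro v hv
        rw [pw_fst, pw_tt]
        rcases Finset.mem_insert.1 hv with rfl | hv
        · rw [C.hM v r, A1 r hr, if_neg (Ne.symm nr1), if_pos rfl, zero_add]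
          have h2 := h.ne
          revert h2
          generalize M v v = x
          generalize M v b = t
          revert x t
          decide
        · rw [Finset.mem_singleton] at hv
          subst hv
          rw [C.hM v r, A2 r hr, C.hM v a, if_neg (Ne.symm nr2), if_neg (Ne.symm hab), add_zero,
            CharTwo.add_self_eq_zero]
      · intro v hv hu
        rw [Finset.mem_insert, Finset.mem_singleton, not_or] at hv
        rw [pw_tt, if_neg, if_neg hv.1, add_zero]
        rintro rfl
        exact hu (hY0 v hr)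
    have hb0 : ∀ v, pw M H e a b v = 0 → v ∉ Y → pw M H e r a v = 0 := by
      intro v hv hvY
      apply eq_zero_of (H := H)
      · rw [pw_fst, A3 r hr v hv hvY]
        exact CharTwo.add_self_eq_zero _
      · rw [pw_tt, if_neg, if_neg, add_zero]
        · rintro rfl
          exact hT.ne v (by simp) hv
        · rintro rfl
          exact hvY hr
    by_cases hlam2 : lam = M a b
    · apply hns
      refine ⟨r, pw M H e r a, pw_mem C r a, pw M H e r a + pw M H e a b,
        B.add_mem (pw_mem C r a) hT.mem, ?_, ?_, ?_, ?_⟩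
      · funext v
        simp only [Pi.add_apply]
        rw [← add_assoc, kadd_self, zero_add]
      · apply eq_z_of (H := H)
        · rw [pw_fst, hlam r hr, A1 r hr, hlam2]
          exact CharTwo.add_self_eq_zero _
        · rw [pw_tt, if_pos rfl, if_neg nr1, add_zero]
      · rw [Pi.add_apply, hY0 r hr, add_zero]
        apply eq_z_of (H := H)
        · rw [pw_fst, hlam r hr, A1 r hr, hlam2]
          exact CharTwo.add_self_eq_zero _
        · rw [pw_tt, if_pos rfl, if_neg nr1, add_zero]
      · intro v hv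
        by_cases hu : pw M H e a b v = 0
        · left
          by_cases hvY : v ∈ Y
          · apply eq_zero_of (H := H)
            · rw [pw_fst, C.hM v r, hlam v hvY, A1 v hvY, hlam2]
              exact CharTwo.add_self_eq_zero _
            · rw [pw_tt, if_neg hv, if_neg (hYne v hvY).1, add_zero]
          · exact hb0 v hu hvY
        · rcases hb v hu with h1 | h1
          · exact Or.inl h1
          · right
            rw [Pi.add_apply, h1, kadd_self]
    · have hlam3 : lam = M a a := by
        have f3 : ∀ l x y : ZMod 2, l ≠ y → y ≠ x → l = x := by decide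
        exact f3 _ _ _ hlam2 h.ne
      have hp : CP M r a := ⟨by rw [hlam r hr, hlam3], by rw [A1 r hr, hlam r hr, hlam3]; exact h.ne⟩
      have hTk := pw_isT C hp
      rcases C.hS.mono _ Y hY (pw_irr C h) _ hTk.mem hTk.zfree (hTk.ne_zero ⟨r, by simp⟩)
        (pw_irr C hp) hb hb0 with ⟨g, hg⟩ | ⟨Y', hY', ⟨v, hv⟩, hSY'⟩
      · obtain ⟨c, hc, c1, c2, gr, ga, g1, g2, g3, g4⟩ := pair_split C hp hg
        have hga : M g a = M a b := by rw [g3, A1 r hr]
        have hgb : M g b = M a b := by
          rw [g4 b (by rw [A2 r hr]), A2 r hr]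
        have hgY := inY _ c g hc c1 c2 hb hb0 hga hgb
        have h5 := hlam g hgY
        rw [C.hM r g, g2, A1 r hr, hlam3] at h5
        exact h.ne h5
      · have h6 := congrArg Prod.fst (C.hS.zero _ Y' hSY' v hv)
        rw [pw_fst, C.hM v r, hlam v (hY' hv), A1 v (hY' hv), hlam3] at h6
        have f4 : ∀ x y : ZMod 2, x + y = 0 → y ≠ x → False := by decide
        exact f4 _ _ h6 h.ne

/-- **The code side for rooted codes with sides.** -/
theorem code_side (hL : IsCode B) (hH : IsMat B H) (hS : RSides B e S) :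
    ∃ M : V → V → ZMod 2, (∀ x y, M x y = M y x) ∧ (∀ x, M e x = 0) ∧
      (∀ u, u ≠ e → ∀ v, (∑ w, H u w * (M u v + M w v)) = if u = v then 1 else 0) ∧
      Pairs M ∧ P4Split M := by
  obtain ⟨M, hM, he, hi⟩ := exists_inv' hL hH hS
  have C : Ctx B H e S M := ⟨hL, hH, hS, hM, he, hi⟩
  refine ⟨M, hM, he, hi, ?_, ?_⟩
  · intro a b h1 h2
    have hp : CP M a b := ⟨h1, h2⟩
    have hTk := pw_isT C hp
    have hsp : ∃ g, Splits B (pw M H e a b) g := by
      rcases hS.ex _ hTk.mem hTk.zfree hTk.root (hTk.ne_zero ⟨a, by simp⟩) (pw_irr C hp) with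
        h3 | ⟨Y, hY, hSY⟩
      · exact h3
      · exact pair_main C _ a b Y hp le_rfl hSY hY
    obtain ⟨g, hg⟩ := hsp
    obtain ⟨c, hc, c1, c2, -, -, g1, g2, g3, g4⟩ := pair_split C hp hg
    exact ⟨g, by rw [g1]; exact h2, by rw [g1, g2], by rw [g1, g3], g4⟩
  · intro a b c d hp h1 h2 h3 h4
    have hp' : PP M a b c d := ⟨hp, h1, h2, h3, h4⟩
    have hTk := qw_isT C hp'
    rcases hS.ex _ hTk.mem hTk.zfree hTk.root (hTk.ne_zero ⟨a, by simp⟩) (qw_irr C hp') with
      ⟨g, hg⟩ | ⟨Y, ⟨y, hy⟩, hSY⟩
    · obtain ⟨k, -, -, -, g1, g2⟩ := p4_split C hp' hg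
      exact ⟨g, g1, g2⟩
    · obtain ⟨g1, g2⟩ := p4_own C hp' hSY hy
      exact ⟨y, g1, g2⟩

end

end Pool.Agent.H77.Q
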