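import Pool.Agent.H77.Q.Words

set_option autoImplicit false

/-!
Rooted codes with sides (MP_a46c6f_co, full Q1): closed pairs and paths, and the own places of their
sides.
-/

namespace Pool.Agent.H77.Q

open Pool.Agent.H98.Code Pool.Agent.H17.TR Pool.Agent.H17.P3 Pool.Agent.H77.P3

section
variable {V : Type} [Fintype V] [DecidableEq V] {B : Submodule (ZMod 2) (V → K)}
  {H : V → V → ZMod 2} {e : V} {S : (V → K) → Finset V → Prop} {M : V → V → ZMod 2}

/-- a closed pair -/
structure CP (M : V → V → ZMod 2) (a b : V) : Prop where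
  eq : M a a = M b b
  ne : M a b ≠ M a a

theorem n01 : (0 : ZMod 2) ≠ 1 := by decide

theorem CP.ab {a b : V} (h : CP M a b) : a ≠ b := by
  rintro rfl
  exact h.ne rfl

theorem CP.ea (C : Ctx B H e S M) {a b : V} (h : CP M a b) : a ≠ e := by
  rintro rfl
  exact h.ne (by rw [C.he, C.he])

theorem CP.eb (C : Ctx B H e S M) {a b : V} (h : CP M a b) : b ≠ e := by
  rintro rfl
  exact h.ne (by rw [C.hM a b, C.he, h.eq, C.he])

/-- the word of a pair -/
def pw (M H : V → V → ZMod 2) (e a b : V) : V → K := rw' M H e a + rw' M H e b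

theorem pw_fst (a b w : V) : (pw M H e a b w).1 = M w a + M w b := rfl

theorem pw_tt (a b w : V) :
    tt H (pw M H e a b) w = (if w = a then 1 else 0) + (if w = b then 1 else 0) := by
  unfold pw
  rw [tt_add, tt_rw, tt_rw]
  generalize (if w = a then (1 : ZMod 2) else 0) = x
  generalize (if w = b then (1 : ZMod 2) else 0) = y
  generalize (if w = e then (1 : ZMod 2) else 0) = t
  revert x y t
  decide

theorem pw_mem (C : Ctx B H e S M) (a b : V) : pw M H e a b ∈ B :=
  B.add_mem (rw_mem C a) (rw_mem C b)

theorem pw_isT (C : Ctx B H e S M) {a b : V} (h : CP M a b) : IsT B H e {a, b} (pw M H e a b) := by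
  have hab := h.ab
  refine ⟨pw_mem C a b, ?_, ?_, ?_, ?_⟩
  · apply eq_zero_of (H := H)
    · rw [pw_fst, C.he, C.he, add_zero]
    · rw [pw_tt, if_neg (Ne.symm (h.ea C)), if_neg (Ne.symm (h.eb C)), add_zero]
  · intro v hv
    rw [pw_fst]
    rcases Finset.mem_insert.1 hv with rfl | hv
    · have h2 := h.ne
      revert h2
      generalize M v v = x
      generalize M v b = y
      revert x y
      decide
    · rw [Finset.mem_singleton] at hv
      subst hv
      have h2 := h.ne
      rw [C.hM v a, ← h.eq]
      revert h2
      generalize M a a = x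
      generalize M a v = y
      revert x y
      decide
  · intro v hv
    rw [pw_tt]
    rcases Finset.mem_insert.1 hv with rfl | hv
    · rw [if_pos rfl, if_neg hab, add_zero]
    · rw [Finset.mem_singleton] at hv
      subst hv
      rw [if_pos rfl, if_neg (Ne.symm hab), zero_add]
  · intro v hv
    rw [Finset.mem_insert, Finset.mem_singleton, not_or] at hv
    rw [pw_tt, if_neg hv.1, if_neg hv.2, add_zero]

theorem pw_irr (C : Ctx B H e S M) {a b : V} (h : CP M a b) : Irr B (pw M H e a b) := by
  intro d hd hdu
  have hT := pw_isT C h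
  have h1 := hT.val (q := d) (fun v _ => hdu v)
  have hde : (d e).1 = 0 := by
    rcases hdu e with h2 | h2
    · rw [h2]; rfl
    · rw [h2, hT.root]; rfl
  have hsupp : ∀ v, v ∉ ({a, b} : Finset V) → tt H d v = 0 := by
    intro v hv
    rcases hdu v with h2 | h2
    · exact tt_zero h2
    · have : tt H d v = tt H (pw M H e a b) v := by unfold tt; rw [h2]
      rw [this, hT.tout v hv]
  obtain ⟨r1, r2⟩ := rep C hd hde _ hsupp
  rw [Finset.sum_pair h.ab] at r2
  rcases z2 (tt H d a) with h3 | h3
  · left
    apply uniq C hd hde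
    intro v
    by_cases hv : v ∈ ({a, b} : Finset V)
    · rcases Finset.mem_insert.1 hv with rfl | hv
      · exact h3
      · rw [Finset.mem_singleton] at hv
        subst hv
        rw [h3, zero_add] at r2
        exact r2
    · exact hsupp v hv
  · right
    have h4 : d + pw M H e a b = 0 := by
      apply uniq C (B.add_mem hd (pw_mem C a b))
      · rw [Pi.add_apply, Prod.fst_add, hde, hT.root]
        rfl
      · intro v
        rw [tt_add]
        by_cases hv : v ∈ ({a, b} : Finset V)
        · rw [hT.tin v hv]
          rcases Finset.mem_insert.1 hv with rfl | hv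
          · rw [h3]; decide
          · rw [Finset.mem_singleton] at hv
            subst hv
            rw [h3] at r2
            revert r2
            generalize tt H d v = s
            revert s
            decide
        · rw [hsupp v hv, hT.tout v hv, add_zero]
    funext v
    exact kadd_eq_zero (congrFun h4 v)

/-- own places of the side of a closed pair -/
theorem pair_own (C : Ctx B H e S M) {a b : V} (h : CP M a b) {Y : Finset V}
    (hY : S (pw M H e a b) Y) {y : V} (hy : y ∈ Y) :
    M y a = M a b ∧ M y b = M a b ∧ ∀ w, pw M H e a b w = 0 → w ∉ Y → M w y = M w a := by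
  have hT := pw_isT C h
  have hab := h.ab
  have hea := h.ea C
  have hY0 := C.hS.zero _ Y hY
  have heY := C.hS.root _ Y hY
  have hyy : M y a = M y b := by
    have h1 := congrArg Prod.fst (hY0 y hy)
    rw [pw_fst] at h1
    revert h1
    generalize M y a = x
    generalize M y b = t
    revert x t
    decide
  have hnT : ∀ v ∈ Y, v ≠ a ∧ v ≠ b ∧ v ≠ e := by
    intro v hv
    refine ⟨?_, ?_, ?_⟩
    · rintro rfl
      exact hT.ne v (by simp) (hY0 v hv)
    · rintro rfl
      exact hT.ne v (by simp) (hY0 v hv)
    · rintro rfl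
      exact heY hv
  have hsu : ∀ v, v ∉ ({a, b} : Finset V) → pw M H e a b v ≠ 0 → v ≠ a ∧ v ≠ b ∧ v ≠ e ∧ v ≠ y := by
    intro v hv hu
    rw [Finset.mem_insert, Finset.mem_singleton, not_or] at hv
    refine ⟨hv.1, hv.2, ?_, ?_⟩
    · rintro rfl
      exact hu hT.root
    · rintro rfl
      exact hu (hY0 v hy)
  have key : M y a = M a b := by
    rcases z2 (M a a) with h0 | h0
    · have hab1 : M a b = 1 := by
        rcases z2 (M a b) with h1 | h1
        · exact absurd (h1.trans h0.symm) h.ne
        · exact h1
      rw [hab1]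
      by_contra hne
      have hy0 : M y a = 0 := by
        rcases z2 (M y a) with h1 | h1
        · exact h1
        · exact absurd h1 hne
      obtain ⟨σ, s1, s2, -⟩ := fpart C hT hY (rw_mem C y) (hT.below (by
          intro v hv
          rw [tt_rw]
          show M v y = _
          rcases Finset.mem_insert.1 hv with rfl | hv
          · rw [C.hM v y, hy0, if_neg (Ne.symm (hnT y hy).1), if_neg hea, add_zero]
          · rw [Finset.mem_singleton] at hv
            subst hv
            rw [C.hM v y, ← hyy, hy0, if_neg (Ne.symm (hnT y hy).2.1), if_neg (h.eb C), add_zero])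
        (by
          intro v hv hu
          obtain ⟨-, -, n3, n4⟩ := hsu v hv hu
          rw [tt_rw, if_neg n4, if_neg n3, add_zero])) hy (by
          intro v hv
          rw [tt_rw, if_neg (hnT v hv).2.2, add_zero])
      rw [Finset.sum_pair hab] at s1
      have s3 := s2 a (by simp)
      rw [Finset.sum_pair hab, h0, hab1, C.hM a y, hy0] at s3
      revert s1 s3
      generalize σ a = x
      generalize σ b = t
      revert x t
      decide
    · have hab0 : M a b = 0 := by
        rcases z2 (M a b) with h1 | h1
        · exact h1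
        · exact absurd (h1.trans h0.symm) h.ne
      rw [hab0]
      obtain ⟨k, hk, k1, k2, k3, -⟩ := fpart0 C hT hY (rw_mem C a) (hT.below (by
          intro v hv
          rw [tt_rw]
          show M v a = _
          rcases Finset.mem_insert.1 hv with rfl | hv
          · rw [h0, if_pos rfl, if_neg hea, add_zero]
          · rw [Finset.mem_singleton] at hv
            subst hv
            rw [C.hM v a, hab0, if_neg (Ne.symm hab), if_neg (h.eb C), add_zero])
        (by
          intro v hv hu
          obtain ⟨n1, -, n3, -⟩ := hsu v hv hu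
          rw [tt_rw, if_neg n1, if_neg n3, add_zero])) (by
          intro v hv
          rw [tt_rw, if_neg (hnT v hv).1, if_neg (hnT v hv).2.2, add_zero])
      obtain ⟨r1, r2⟩ := rep C hk k2 _ k3
      have r3 := r1 y
      rw [Finset.sum_pair hab] at r2 r3
      rw [k1 y hy] at r3
      rw [← hyy] at r3
      change M y a = _ at r3
      revert r2 r3
      generalize tt H k a = s
      generalize tt H k b = t
      generalize M y a = x
      revert s t x
      decide
  refine ⟨key, hyy ▸ key, ?_⟩
  have hbelow : ∀ v, pw M H e a b v ≠ 0 → pw M H e y a v = 0 ∨ pw M H e y a v = pw M H e a b v := by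
    apply hT.below
    · intro v hv
      rw [pw_fst, pw_tt]
      rcases Finset.mem_insert.1 hv with rfl | hv
      · rw [C.hM v y, key, if_neg (Ne.symm (hnT y hy).1), if_pos rfl, zero_add]
        have h2 := h.ne
        revert h2
        generalize M v v = x
        generalize M v b = t
        revert x t
        decide
      · rw [Finset.mem_singleton] at hv
        subst hv
        rw [C.hM v y, ← hyy, key, C.hM v a, if_neg (Ne.symm (hnT y hy).2.1),
          if_neg (Ne.symm hab), add_zero, CharTwo.add_self_eq_zero]
    · intro v hv hu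
      obtain ⟨n1, -, -, n4⟩ := hsu v hv hu
      rw [pw_tt, if_neg n4, if_neg n1, add_zero]
  obtain ⟨σ, s1, -, s3⟩ := fpart C hT hY (pw_mem C y a) hbelow hy (by
      intro v hv
      rw [pw_tt, if_neg (hnT v hv).1, add_zero])
  intro w hw hwY
  have s4 := s3 w hw hwY
  rw [Finset.sum_pair hab] at s1 s4
  have h5 := congrArg Prod.fst hw
  rw [pw_fst] at h5
  change M w a + M w b = 0 at h5
  revert s1 s4 h5
  generalize M w a = x
  generalize M w b = t
  generalize M w y = r
  generalize σ a = p
  generalize σ b = q
  revert x t r p q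
  decide

/-- the hypotheses on a path with colours `0110` -/
structure PP (M : V → V → ZMod 2) (a b c d : V) : Prop where
  p : IsP4 M a b c d
  a0 : M a a = 0
  b1 : M b b = 1
  c1 : M c c = 1
  d0 : M d d = 0

/-- the word of a path -/
def qw (M H : V → V → ZMod 2) (e a b c d : V) : V → K :=
  (rw' M H e a + rw' M H e b) + (rw' M H e c + rw' M H e d)

theorem qw_fst (a b c d w : V) : (qw M H e a b c d w).1 = (M w a + M w b) + (M w c + M w d) := rfl

theorem qw_tt (a b c d w : V) :
    tt H (qw M H e a b c d) w = ((if w = a then 1 else 0) + (if w = b then 1 else 0)) +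
      ((if w = c then 1 else 0) + (if w = d then 1 else 0)) := by
  have h1 := pw_tt (M := M) (H := H) (e := e) a b w
  have h2 := pw_tt (M := M) (H := H) (e := e) c d w
  unfold pw at h1 h2
  unfold qw
  rw [tt_add, h1, h2]

theorem qw_mem (C : Ctx B H e S M) (a b c d : V) : qw M H e a b c d ∈ B :=
  B.add_mem (B.add_mem (rw_mem C a) (rw_mem C b)) (B.add_mem (rw_mem C c) (rw_mem C d))

structure Dist (e a b c d : V) : Prop where
  ab : a ≠ b
  ac : a ≠ c
  ad : a ≠ d
  bc : b ≠ c
  bd : b ≠ d
  cd : c ≠ d
  ae : a ≠ e
  be : b ≠ e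
  ce : c ≠ e
  de : d ≠ e

theorem PP.dist (C : Ctx B H e S M) {a b c d : V} (h : PP M a b c d) : Dist e a b c d := by
  obtain ⟨⟨hab, hbc, hcd, hac, had, hbd⟩, haa, hbb, hcc, hdd⟩ := h
  refine ⟨?_, ?_, ?_, ?_, ?_, ?_, ?_, ?_, ?_, ?_⟩
  · rintro rfl
    exact n01 (haa.symm.trans hbb)
  · rintro rfl
    exact n01 (haa.symm.trans hcc)
  · rintro rfl
    exact n01 (hbd.symm.trans (by rw [C.hM b a]; exact hab))
  · rintro rfl
    exact n01 (hac.symm.trans hab)
  · rintro rfl
    exact n01 (hdd.symm.trans hbb)
  · rintro rfl
    exact n01 (hdd.symm.trans hcc)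
  · rintro rfl
    exact n01 ((C.he b).symm.trans hab)
  · rintro rfl
    exact n01 ((C.he c).symm.trans hbc)
  · rintro rfl
    exact n01 ((C.he d).symm.trans hcd)
  · rintro rfl
    exact n01 ((C.he c).symm.trans (by rw [C.hM d c]; exact hcd))

theorem sum4 {e a b c d : V} (h : Dist e a b c d) (f : V → ZMod 2) :
    ∑ x ∈ ({a, b, c, d} : Finset V), f x = f a + (f b + (f c + f d)) := by
  rw [Finset.sum_insert (by simp [h.ab, h.ac, h.ad]), Finset.sum_insert (by simp [h.bc, h.bd]),
    Finset.sum_pair h.cd]

theorem qw_isT (C : Ctx B H e S M) {a b c d : V} (h : PP M a b c d) :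
    IsT B H e {a, b, c, d} (qw M H e a b c d) := by
  have D := h.dist C
  obtain ⟨⟨hab, hbc, hcd, hac, had, hbd⟩, haa, hbb, hcc, hdd⟩ := h
  refine ⟨qw_mem C a b c d, ?_, ?_, ?_, ?_⟩
  · apply eq_zero_of (H := H)
    · rw [qw_fst, C.he, C.he, C.he, C.he]; decide
    · rw [qw_tt, if_neg (Ne.symm D.ae), if_neg (Ne.symm D.be), if_neg (Ne.symm D.ce),
        if_neg (Ne.symm D.de)]; decide
  · intro v hv
    rw [qw_fst]
    simp only [Finset.mem_insert, Finset.mem_singleton] at hv
    rcases hv with rfl | rfl | rfl | rfl
    · rw [haa, hab, hac, had]; decide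
    · rw [C.hM v a, hab, hbb, hbc, hbd]; decide
    · rw [C.hM v a, C.hM v b, hac, hbc, hcc, hcd]; decide
    · rw [C.hM v a, C.hM v b, C.hM v c, had, hbd, hcd, hdd]; decide
  · intro v hv
    rw [qw_tt]
    simp only [Finset.mem_insert, Finset.mem_singleton] at hv
    rcases hv with rfl | rfl | rfl | rfl
    · rw [if_pos rfl, if_neg D.ab, if_neg D.ac, if_neg D.ad]; decide
    · rw [if_pos rfl, if_neg (Ne.symm D.ab), if_neg D.bc, if_neg D.bd]; decide
    · rw [if_pos rfl, if_neg (Ne.symm D.ac), if_neg (Ne.symm D.bc), if_neg D.cd]; decide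
    · rw [if_pos rfl, if_neg (Ne.symm D.ad), if_neg (Ne.symm D.bd), if_neg (Ne.symm D.cd)]; decide
  · intro v hv
    simp only [Finset.mem_insert, Finset.mem_singleton, not_or] at hv
    rw [qw_tt, if_neg hv.1, if_neg hv.2.1, if_neg hv.2.2.1, if_neg hv.2.2.2]; decide

theorem qw_irr (C : Ctx B H e S M) {a b c d : V} (h : PP M a b c d) : Irr B (qw M H e a b c d) := by
  have hT := qw_isT C h
  have D := h.dist C
  obtain ⟨⟨hab, hbc, hcd, hac, had, hbd⟩, haa, hbb, hcc, hdd⟩ := h
  intro k hk hku
  have h1 := hT.val (q := k) (fun v _ => hku v)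
  have hde : (k e).1 = 0 := by
    rcases hku e with h2 | h2
    · rw [h2]; rfl
    · rw [h2, hT.root]; rfl
  have hsupp : ∀ v, v ∉ ({a, b, c, d} : Finset V) → tt H k v = 0 := by
    intro v hv
    rcases hku v with h2 | h2
    · exact tt_zero h2
    · have : tt H k v = tt H (qw M H e a b c d) v := by unfold tt; rw [h2]
      rw [this, hT.tout v hv]
  obtain ⟨r1, -⟩ := rep C hk hde _ hsupp
  have ea := (r1 a).symm.trans (h1.1 a (by simp))
  have eb := (r1 b).symm.trans (h1.1 b (by simp))
  have ed := (r1 d).symm.trans (h1.1 d (by simp))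
  rw [sum4 D, haa, hab, hac, had] at ea
  rw [sum4 D, C.hM b a, hab, hbb, hbc, hbd] at eb
  rw [sum4 D, C.hM d a, C.hM d b, C.hM d c, had, hbd, hcd, hdd] at ed
  have hall : tt H k b = tt H k a ∧ tt H k c = tt H k a ∧ tt H k d = tt H k a := by
    revert ea eb ed
    generalize tt H k a = s1
    generalize tt H k b = s2
    generalize tt H k c = s3
    generalize tt H k d = s4
    revert s1 s2 s3 s4
    decide
  have hallT : ∀ v ∈ ({a, b, c, d} : Finset V), tt H k v = tt H k a := by
    intro v hv
    simp only [Finset.mem_insert, Finset.mem_singleton] at hv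
    rcases hv with rfl | rfl | rfl | rfl
    · rfl
    · exact hall.1
    · exact hall.2.1
    · exact hall.2.2
  rcases z2 (tt H k a) with h3 | h3
  · left
    apply uniq C hk hde
    intro v
    by_cases hv : v ∈ ({a, b, c, d} : Finset V)
    · rw [hallT v hv, h3]
    · exact hsupp v hv
  · right
    have h4 : k + qw M H e a b c d = 0 := by
      apply uniq C (B.add_mem hk (qw_mem C a b c d))
      · rw [Pi.add_apply, Prod.fst_add, hde, hT.root]
        rfl
      · intro v
        rw [tt_add]
        by_cases hv : v ∈ ({a, b, c, d} : Finset V)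
        · rw [hT.tin v hv, hallT v hv, h3]; decide
        · rw [hsupp v hv, hT.tout v hv, add_zero]
    funext v
    exact kadd_eq_zero (congrFun h4 v)

/-- own places of the side of a path are bad and agree with the path -/
theorem p4_own (C : Ctx B H e S M) {a b c d : V} (h : PP M a b c d) {Y : Finset V}
    (hY : S (qw M H e a b c d) Y) {y : V} (hy : y ∈ Y) :
    Bad M a b c d y ∧ ∀ w, M a w = M b w → M a w = M c w → M a w = M d w → M y w = M a w := by
  have hT := qw_isT C h
  have D := h.dist C
  obtain ⟨⟨hab, hbc, hcd, hac, had, hbd⟩, haa, hbb, hcc, hdd⟩ := h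
  have hY0 := C.hS.zero _ Y hY
  have heY := C.hS.root _ Y hY
  have hnT : ∀ v ∈ Y, v ≠ a ∧ v ≠ b ∧ v ≠ c ∧ v ≠ d ∧ v ≠ e := by
    intro v hv
    refine ⟨?_, ?_, ?_, ?_, ?_⟩
    · rintro rfl
      exact hT.ne v (by simp) (hY0 v hv)
    · rintro rfl
      exact hT.ne v (by simp) (hY0 v hv)
    · rintro rfl
      exact hT.ne v (by simp) (hY0 v hv)
    · rintro rfl
      exact hT.ne v (by simp) (hY0 v hv)
    · rintro rfl
      exact heY hv
  -- the values of `σ`
  have main : ∀ y ∈ Y, ∃ σ : V → ZMod 2, σ a + (σ b + (σ c + σ d)) = 1 ∧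
      M y a = σ a + σ b ∧ M y b = σ a + σ c ∧ M y c = σ b + σ d ∧ M y d = σ c + σ d ∧
      ∀ w, qw M H e a b c d w = 0 → w ∉ Y →
        M w a * σ a + (M w b * σ b + (M w c * σ c + M w d * σ d)) + M w y = 0 := by
    intro y hy
    have h0 := congrArg Prod.fst (hY0 y hy)
    rw [qw_fst] at h0
    change M y a + M y b + (M y c + M y d) = 0 at h0
    set q : V → K := rw' M H e y + (M y a • rw' M H e a + ((M y a + M y b) • rw' M H e c +
      M y c • rw' M H e d)) with hq
    have hqm : q ∈ B := B.add_mem (rw_mem C y) (B.add_mem (B.smul_mem _ (rw_mem C a))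
      (B.add_mem (B.smul_mem _ (rw_mem C c)) (B.smul_mem _ (rw_mem C d))))
    have qf : ∀ w, (q w).1 = M w y + (M y a * M w a + ((M y a + M y b) * M w c + M y c * M w d)) := by
      intro w
      rfl
    have smul_tt : ∀ (t : ZMod 2) (x w : V), tt H (t • rw' M H e x) w = t * tt H (rw' M H e x) w := by
      intro t x w
      unfold tt
      simp only [Pi.smul_apply, Prod.smul_fst, Prod.smul_snd, smul_eq_mul]
      ring
    have qt : ∀ w, w ≠ e → tt H q w = (if w = y then 1 else 0) + (M y a * (if w = a then 1 else 0) +
        ((M y a + M y b) * (if w = c then 1 else 0) + M y c * (if w = d then 1 else 0))) := by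
      intro w hw
      rw [hq, tt_add, tt_add, tt_add, smul_tt, smul_tt, smul_tt, tt_rw, tt_rw, tt_rw, tt_rw,
        if_neg hw, add_zero, add_zero, add_zero, add_zero]
    obtain ⟨ny1, ny2, ny3, ny4, ny5⟩ := hnT y hy
    have hbelow := hT.below (q := q) (by
        intro v hv
        simp only [Finset.mem_insert, Finset.mem_singleton] at hv
        rcases hv with rfl | rfl | rfl | rfl
        · rw [qf, qt v D.ae, if_neg (Ne.symm ny1), if_pos rfl, if_neg D.ac, if_neg D.ad, C.hM v y,
            haa, hac, had]
          generalize M y v = x1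
          generalize M y b = x2
          generalize M y c = x3
          revert x1 x2 x3
          decide
        · rw [qf, qt v D.be, if_neg (Ne.symm ny2), if_neg (Ne.symm D.ab), if_neg D.bc, if_neg D.bd,
            C.hM v y, C.hM v a, hab, hbc, hbd]
          generalize M y a = x1
          generalize M y v = x2
          generalize M y c = x3
          revert x1 x2 x3
          decide
        · rw [qf, qt v D.ce, if_neg (Ne.symm ny3), if_neg (Ne.symm D.ac), if_pos rfl, if_neg D.cd,
            C.hM v y, C.hM v a, hac, hcc, hcd]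
          generalize M y a = x1
          generalize M y b = x2
          generalize M y v = x3
          revert x1 x2 x3
          decide
        · rw [qf, qt v D.de, if_neg (Ne.symm ny4), if_neg (Ne.symm D.ad), if_neg (Ne.symm D.cd),
            if_pos rfl, C.hM v y, C.hM v a, C.hM v c, had, hcd, hdd]
          revert h0
          generalize M y a = x1
          generalize M y b = x2
          generalize M y c = x3
          generalize M y v = x4
          revert x1 x2 x3 x4
          decide)
      (by
        intro v hv hu
        simp only [Finset.mem_insert, Finset.mem_singleton, not_or] at hv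
        have hve : v ≠ e := by
          rintro rfl
          exact hu hT.root
        have hvy : v ≠ y := by
          rintro rfl
          exact hu (hY0 v hy)
        rw [qt v hve, if_neg hvy, if_neg hv.1, if_neg hv.2.2.1, if_neg hv.2.2.2]
        ring)
    obtain ⟨σ, s1, s2, s3⟩ := fpart C hT hY hqm hbelow hy (by
        intro v hv
        obtain ⟨n1, n2, n3, n4, n5⟩ := hnT v hv
        rw [qt v n5, if_neg n1, if_neg n3, if_neg n4]
        ring)
    rw [sum4 D] at s1
    have ea := s2 a (by simp)
    have eb := s2 b (by simp)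
    have ec := s2 c (by simp)
    have ed := s2 d (by simp)
    rw [sum4 D, haa, hab, hac, had, C.hM a y] at ea
    rw [sum4 D, C.hM b a, hab, hbb, hbc, hbd, C.hM b y] at eb
    rw [sum4 D, C.hM c a, C.hM c b, hac, hbc, hcc, hcd, C.hM c y] at ec
    rw [sum4 D, C.hM d a, C.hM d b, C.hM d c, had, hbd, hcd, hdd, C.hM d y] at ed
    refine ⟨σ, s1, ?_, ?_, ?_, ?_, ?_⟩
    · clear eb ec ed
      revert ea
      generalize σ a = p1
      generalize σ b = p2
      generalize σ c = p3
      generalize σ d = p4
      generalize M y a = x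
      revert p1 p2 p3 p4 x
      decide
    · clear ea ec ed
      revert eb
      generalize σ a = p1
      generalize σ b = p2
      generalize σ c = p3
      generalize σ d = p4
      generalize M y b = x
      revert p1 p2 p3 p4 x
      decide
    · clear ea eb ed
      revert ec
      generalize σ a = p1
      generalize σ b = p2
      generalize σ c = p3
      generalize σ d = p4
      generalize M y c = x
      revert p1 p2 p3 p4 x
      decide
    · clear ea eb ec
      revert ed
      generalize σ a = p1
      generalize σ b = p2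
      generalize σ c = p3
      generalize σ d = p4
      generalize M y d = x
      revert p1 p2 p3 p4 x
      decide
    · intro w hw hwY
      have := s3 w hw hwY
      rw [sum4 D] at this
      exact this
  have bad : ∀ y ∈ Y, Bad M a b c d y := by
    intro y hy
    obtain ⟨σ, s1, e1, e2, e3, e4, -⟩ := main y hy
    refine ⟨?_, ?_⟩
    · rw [e1, e4]
      revert s1
      generalize σ a = p1
      generalize σ b = p2
      generalize σ c = p3
      generalize σ d = p4
      revert p1 p2 p3 p4
      decide
    · rw [e2, e3]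
      revert s1
      generalize σ a = p1
      generalize σ b = p2
      generalize σ c = p3
      generalize σ d = p4
      revert p1 p2 p3 p4
      decide
  refine ⟨bad y hy, ?_⟩
  intro w w1 w2 w3
  obtain ⟨σ, s1, -, -, -, -, s3⟩ := main y hy
  have hwT : w ∉ ({a, b, c, d} : Finset V) := by
    intro hw
    simp only [Finset.mem_insert, Finset.mem_singleton] at hw
    rcases hw with rfl | rfl | rfl | rfl
    · rw [haa, C.hM b w, hab] at w1
      exact n01 w1
    · rw [hab, C.hM d w, hbd] at w3
      exact n01 w3.symm
    · rw [hac, hcc] at w2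
      exact n01 w2
    · rw [had, hcd] at w2
      exact n01 w2
  have hw0 : qw M H e a b c d w = 0 := by
    apply eq_zero_of (H := H)
    · rw [qw_fst, C.hM w a, C.hM w b, C.hM w c, C.hM w d, ← w1, ← w2, ← w3]
      generalize M a w = x
      revert x
      decide
    · exact hT.tout w hwT
  have hwY : w ∉ Y := by
    intro hw
    apply (bad w hw).1
    rw [C.hM w a, C.hM w d, w3]
  have := s3 w hw0 hwY
  rw [C.hM w a, C.hM w b, C.hM w c, C.hM w d, ← w1, ← w2, ← w3, C.hM w y] at this
  revert this s1
  generalize M a w = x
  generalize M y w = t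
  generalize σ a = p1
  generalize σ b = p2
  generalize σ c = p3
  generalize σ d = p4
  revert x t p1 p2 p3 p4
  decide

end

end Pool.Agent.H77.Q
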