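import Pool.Agent.H77.Q.Base

set_option autoImplicit false

/-!
Rooted codes with sides (MP_a46c6f_co, full Q1): the words `r x` and the parts of words.
-/

namespace Pool.Agent.H77.Q

open Pool.Agent.H98.Code Pool.Agent.H17.TR Pool.Agent.H17.P3 Pool.Agent.H77.P3

/-- the third letter indicator -/
def tt {V : Type} [Fintype V] (H : V → V → ZMod 2) (u : V → K) (v : V) : ZMod 2 :=
  (u v).2 + deg H v * (u v).1

/-- the setting -/
structure Ctx {V : Type} [Fintype V] [DecidableEq V] (B : Submodule (ZMod 2) (V → K))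
    (H : V → V → ZMod 2) (e : V) (S : (V → K) → Finset V → Prop) (M : V → V → ZMod 2) : Prop where
  hL : IsCode B
  hH : IsMat B H
  hS : RSides B e S
  hM : ∀ x y, M x y = M y x
  he : ∀ x, M e x = 0
  hi : ∀ u, u ≠ e → ∀ v, lap H (fun w => M w v) u = if u = v then 1 else 0

section
variable {V : Type} [Fintype V] [DecidableEq V] {B : Submodule (ZMod 2) (V → K)}
  {H : V → V → ZMod 2} {e : V} {S : (V → K) → Finset V → Prop} {M : V → V → ZMod 2}

/-- the row words -/
def rw' (M H : V → V → ZMod 2) (e x : V) : V → K := fun w =>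
  (M w x, deg H w * M w x + ((if w = x then 1 else 0) + (if w = e then 1 else 0)))

theorem lap_full (C : Ctx B H e S M) (x w : V) :
    lap H (fun w => M w x) w = (if w = x then 1 else 0) + (if w = e then 1 else 0) := by
  by_cases hw : w = e
  · subst hw
    have h1 := lap_sum C.hH.sym (fun w => M w x)
    rw [← Finset.add_sum_erase _ _ (Finset.mem_univ w),
      Finset.sum_congr rfl fun v hv => C.hi v (Finset.ne_of_mem_erase hv) x] at h1
    rw [Finset.sum_ite_eq'] at h1
    by_cases hx : w = x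
    · rw [if_neg (by rw [hx]; exact Finset.notMem_erase _ _), add_zero] at h1
      rw [h1, if_pos hx, if_pos rfl]
      decide
    · rw [if_pos (Finset.mem_erase.2 ⟨fun h => hx h.symm, Finset.mem_univ _⟩)] at h1
      rw [if_neg hx, if_pos rfl, zero_add]
      revert h1
      generalize lap H (fun w => M w x) w = a
      revert a
      decide
  · rw [C.hi w hw x, if_neg hw, add_zero]

theorem rw_mem (C : Ctx B H e S M) (x : V) : rw' M H e x ∈ B := by
  have h := word_mem C.hH (fun w => M w x)
  have : (fun v => (((fun w => M w x) v, deg H v * (fun w => M w x) v +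
      lap H (fun w => M w x) v) : K)) = rw' M H e x := by
    funext v
    unfold rw'
    rw [lap_full C]
  rw [← this]
  exact h

theorem tt_rw (x w : V) :
    tt H (rw' M H e x) w = (if w = x then 1 else 0) + (if w = e then 1 else 0) := by
  unfold tt rw'
  simp only
  generalize deg H w * M w x = a
  generalize ((if w = x then 1 else 0) + (if w = e then 1 else 0) : ZMod 2) = b
  revert a b
  decide

theorem tt_add (u v : V → K) (w : V) : tt H (u + v) w = tt H u w + tt H v w := by
  unfold tt
  simp only [Pi.add_apply, Prod.fst_add, Prod.snd_add]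
  ring

theorem ext_tt {u v : V → K} {w : V} (h1 : (u w).1 = (v w).1) (h2 : tt H u w = tt H v w) :
    u w = v w := by
  unfold tt at h2
  rw [h1] at h2
  exact Prod.ext h1 (add_right_cancel h2)

theorem eq_zero_of {u : V → K} {w : V} (h1 : (u w).1 = 0) (h2 : tt H u w = 0) : u w = 0 := by
  unfold tt at h2
  rw [h1, mul_zero, add_zero] at h2
  exact Prod.ext h1 h2

theorem tt_zero {u : V → K} {w : V} (h : u w = 0) : tt H u w = 0 := by
  unfold tt
  rw [h]
  simp

theorem tt_eq {u : V → K} (C : Ctx B H e S M) (hu : u ∈ B) (v : V) :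
    tt H u v = lap H (fun w => (u w).1) v := by
  have h := snd_eq C.hH hu v
  unfold tt
  rw [h]
  generalize deg H v * (u v).1 = a
  generalize lap H (fun w => (u w).1) v = b
  revert a b
  decide

/-- representation of the words with first coordinate `0` at the root -/
theorem rep (C : Ctx B H e S M) {u : V → K} (hu : u ∈ B) (hue : (u e).1 = 0) (T : Finset V)
    (hT : ∀ v, v ∉ T → tt H u v = 0) :
    (∀ w, (u w).1 = ∑ x ∈ T, M w x * tt H u x) ∧ ∑ x ∈ T, tt H u x = 0 := by
  constructor
  · intro w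
    have h1 := recover C.hH C.hM C.he C.hi (fun w => (u w).1) hue w
    rw [h1]
    rw [Finset.sum_congr rfl fun v _ => by rw [← tt_eq C hu v]]
    symm
    apply Finset.sum_subset (Finset.subset_univ T)
    intro v _ hv
    rw [hT v hv, mul_zero]
  · have h1 := lap_sum C.hH.sym (fun w => (u w).1)
    rw [Finset.sum_congr rfl fun v _ => (tt_eq C hu v).symm] at h1
    rw [← h1]
    apply Finset.sum_subset (Finset.subset_univ T)
    intro v _ hv
    exact hT v hv

theorem uniq (C : Ctx B H e S M) {u : V → K} (hu : u ∈ B) (hue : (u e).1 = 0)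
    (h : ∀ v, tt H u v = 0) : u = 0 := by
  have h1 := rep C hu hue ∅ (fun v _ => h v)
  funext w
  apply eq_zero_of (H := H) _ (h w)
  rw [h1.1 w, Finset.sum_empty]

/-- a word with third letters exactly on `T`, first coordinate `1` there -/
structure IsT (B : Submodule (ZMod 2) (V → K)) (H : V → V → ZMod 2) (e : V) (T : Finset V)
    (u : V → K) : Prop where
  mem : u ∈ B
  root : u e = 0
  one : ∀ v ∈ T, (u v).1 = 1
  tin : ∀ v ∈ T, tt H u v = 1
  tout : ∀ v, v ∉ T → tt H u v = 0

theorem IsT.cases {T : Finset V} {u : V → K} (h : IsT B H e T u) (v : V) (hv : v ∉ T) :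
    u v = 0 ∨ u v = om H v := by
  rcases z2 ((u v).1) with h1 | h1
  · exact Or.inl (eq_zero_of h1 (h.tout v hv))
  · right
    apply ext_tt (H := H)
    · exact h1
    · rw [h.tout v hv]
      unfold tt om
      simp only [mul_one]
      rw [CharTwo.add_self_eq_zero]

theorem IsT.zfree {T : Finset V} {u : V → K} (h : IsT B H e T u) : ZFree u := by
  intro v hv
  by_cases hvT : v ∈ T
  · have := h.one v hvT
    rw [hv] at this
    exact absurd this (by decide)
  · rcases h.cases v hvT with h1 | h1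
    · rw [h1] at hv
      exact absurd hv (by decide)
    · rw [h1] at hv
      exact absurd (congrArg Prod.fst hv) (by simp [om, z])

theorem IsT.ne {T : Finset V} {u : V → K} (h : IsT B H e T u) (v : V) (hv : v ∈ T) : u v ≠ 0 := by
  intro h0
  have := h.one v hv
  rw [h0] at this
  exact absurd this (by decide)

theorem IsT.ne_zero {T : Finset V} {u : V → K} (h : IsT B H e T u) (hT : T.Nonempty) : u ≠ 0 := by
  obtain ⟨v, hv⟩ := hT
  intro h0
  exact h.ne v hv (by rw [h0]; rfl)

theorem IsT.e_notMem {T : Finset V} {u : V → K} (h : IsT B H e T u) : e ∉ T := by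
  intro h0
  exact h.ne e h0 h.root

/-- below `u` on the support: what has to be checked -/
theorem IsT.below {T : Finset V} {u q : V → K} (h : IsT B H e T u)
    (h1 : ∀ v ∈ T, (q v).1 = tt H q v) (h0 : ∀ v, v ∉ T → u v ≠ 0 → tt H q v = 0) :
    ∀ v, u v ≠ 0 → q v = 0 ∨ q v = u v := by
  intro v hv
  by_cases hvT : v ∈ T
  · rcases z2 (tt H q v) with h2 | h2
    · left
      exact eq_zero_of (by rw [h1 v hvT, h2]) h2
    · right
      apply ext_tt (H := H)
      · rw [h1 v hvT, h2, h.one v hvT]
      · rw [h2, h.tin v hvT]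
  · have h2 := h0 v hvT hv
    rcases z2 ((q v).1) with h3 | h3
    · exact Or.inl (eq_zero_of h3 h2)
    · right
      rw [(h.cases v hvT).resolve_left hv]
      apply ext_tt (H := H)
      · exact h3
      · rw [h2]
        unfold tt om
        simp only [mul_one]
        rw [CharTwo.add_self_eq_zero]

/-- the values of a word below `u` on the support -/
theorem IsT.val {T : Finset V} {u q : V → K} (h : IsT B H e T u)
    (hq : ∀ v, u v ≠ 0 → q v = 0 ∨ q v = u v) :
    (∀ v ∈ T, (q v).1 = tt H q v) ∧ ∀ v, v ∉ T → u v ≠ 0 → tt H q v = 0 := by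
  constructor
  · intro v hv
    rcases hq v (h.ne v hv) with h1 | h1
    · rw [tt_zero h1, h1]
      rfl
    · have : tt H q v = tt H u v := by
        unfold tt
        rw [h1]
      rw [this, h.tin v hv, h1, h.one v hv]
  · intro v hv hu
    rcases hq v hu with h1 | h1
    · exact tt_zero h1
    · have : tt H q v = tt H u v := by
        unfold tt
        rw [h1]
      rw [this, h.tout v hv]

/-- the part of a word with one third letter on `Y` -/
theorem fpart (C : Ctx B H e S M) {T : Finset V} {u : V → K} (h : IsT B H e T u) {Y : Finset V}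
    (hY : S u Y) {q : V → K} (hq : q ∈ B) (hqu : ∀ v, u v ≠ 0 → q v = 0 ∨ q v = u v) {y : V}
    (hy : y ∈ Y) (hqY : ∀ v ∈ Y, tt H q v = if v = y then 1 else 0) :
    ∃ σ : V → ZMod 2, ∑ j ∈ T, σ j = 1 ∧
      (∀ w ∈ T, ∑ j ∈ T, M w j * σ j + M w y = σ w) ∧
      ∀ w, u w = 0 → w ∉ Y → ∑ j ∈ T, M w j * σ j + M w y = 0 := by
  obtain ⟨k, hk, k1, k2, k3⟩ := C.hS.part u Y hY q hq hqu
  have heY := C.hS.root u Y hY
  have hke : k e = 0 := k2 e h.root heY
  obtain ⟨v1, v2⟩ := h.val k3
  have hyT : y ∉ T := by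
    intro h0
    exact h.ne y h0 (C.hS.zero u Y hY y hy)
  have hsupp : ∀ v, v ∉ insert y T → tt H k v = 0 := by
    intro v hv
    rw [Finset.mem_insert, not_or] at hv
    by_cases hu : u v = 0
    · by_cases hvY : v ∈ Y
      · have : tt H k v = tt H q v := by
          unfold tt
          rw [k1 v hvY]
        rw [this, hqY v hvY, if_neg hv.1]
      · exact tt_zero (k2 v hu hvY)
    · exact v2 v hv.2 hu
  have hky : tt H k y = 1 := by
    have : tt H k y = tt H q y := by
      unfold tt
      rw [k1 y hy]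
    rw [this, hqY y hy, if_pos rfl]
  obtain ⟨p1, p2⟩ := rep C hk (by rw [hke]; rfl) (insert y T) hsupp
  rw [Finset.sum_insert hyT, hky] at p2
  have p1' : ∀ w, (k w).1 = M w y + ∑ x ∈ T, M w x * tt H k x := by
    intro w
    rw [p1 w, Finset.sum_insert hyT, hky, mul_one]
  refine ⟨tt H k, ?_, ?_, ?_⟩
  · revert p2
    generalize ∑ j ∈ T, tt H k j = a
    revert a
    decide
  · intro w hw
    rw [add_comm, ← p1' w]
    exact v1 w hw
  · intro w hw hwY
    rw [add_comm, ← p1' w, k2 w hw hwY]
    rfl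

/-- a word with no third letter on `Y` -/
theorem fpart0 (C : Ctx B H e S M) {T : Finset V} {u : V → K} (h : IsT B H e T u) {Y : Finset V}
    (hY : S u Y) {q : V → K} (hq : q ∈ B) (hqu : ∀ v, u v ≠ 0 → q v = 0 ∨ q v = u v)
    (hqY : ∀ v ∈ Y, tt H q v = 0) :
    ∃ k ∈ B, (∀ v ∈ Y, k v = q v) ∧ (k e).1 = 0 ∧ (∀ v, v ∉ T → tt H k v = 0) ∧
      ∀ v ∈ T, (k v).1 = tt H k v := by
  obtain ⟨k, hk, k1, k2, k3⟩ := C.hS.part u Y hY q hq hqu
  have heY := C.hS.root u Y hY
  have hke : k e = 0 := k2 e h.root heY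
  obtain ⟨v1, v2⟩ := h.val k3
  refine ⟨k, hk, k1, by rw [hke]; rfl, ?_, v1⟩
  intro v hv
  by_cases hu : u v = 0
  · by_cases hvY : v ∈ Y
    · have : tt H k v = tt H q v := by
        unfold tt
        rw [k1 v hvY]
      rw [this, hqY v hvY]
    · exact tt_zero (k2 v hu hvY)
  · exact v2 v hv hu

/-- the part of a half on the root side -/
theorem kpart (C : Ctx B H e S M) {u : V → K} (hu : u ∈ B) {Y : Finset V} (hY : S u Y)
    {c : V → K} (hc : c ∈ B) (hcu : ∀ v, u v ≠ 0 → c v = 0 ∨ c v = u v) {g : V} (hg : u g = 0)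
    (hgY : g ∉ Y) (hcg : c g = z) (hc0 : ∀ w, u w = 0 → w ∉ Y → w ≠ g → c w = 0) :
    Splits B u g := by
  obtain ⟨k, hk, k1, k2, k3⟩ := C.hS.part u Y hY c hc hcu
  have hkg : k g = 0 := k2 g hg hgY
  refine ⟨c + k, B.add_mem hc hk, c + k + u, B.add_mem (B.add_mem hc hk) hu, ?_, ?_, ?_, ?_⟩
  · funext v
    simp only [Pi.add_apply]
    generalize c v = a
    generalize k v = b
    generalize u v = d
    revert a b d
    decide
  · rw [Pi.add_apply, hcg, hkg, add_zero]
  · rw [Pi.add_apply, Pi.add_apply, hcg, hkg, hg, add_zero, add_zero]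
  · intro v hv
    by_cases h0 : u v = 0
    · left
      rw [Pi.add_apply]
      by_cases hvY : v ∈ Y
      · rw [k1 v hvY, kadd_self]
      · rw [hc0 v h0 hvY hv, k2 v h0 hvY, add_zero]
    · rw [Pi.add_apply, Pi.add_apply, Pi.add_apply]
      rcases hcu v h0 with h1 | h1 <;> rcases k3 v h0 with h2 | h2
      · left; rw [h1, h2, add_zero]
      · right; rw [h1, h2, zero_add, kadd_self]
      · right; rw [h1, h2, add_zero, kadd_self]
      · left; rw [h1, h2, kadd_self]

/-- the halves of a splitting -/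
theorem halves (C : Ctx B H e S M) {T : Finset V} {u : V → K} (h : IsT B H e T u) {g : V}
    (hg : Splits B u g) :
    ∃ c ∈ B, c g = z ∧ (∀ v, v ≠ g → c v = 0 ∨ c v = u v) ∧ g ∉ T ∧
      ∃ σ : V → ZMod 2, ∑ j ∈ T, σ j = 1 ∧
      (∀ w ∈ T, ∑ j ∈ T, M w j * σ j + M w g = σ w) ∧
      ∀ w, u w = 0 → ∑ j ∈ T, M w j * σ j + M w g = 0 := by
  obtain ⟨c₁, hc₁, c₂, hc₂, hs, hg1, hg2, hd⟩ := hg
  have hug : u g = 0 := by
    rw [← hs, Pi.add_apply, hg1, hg2]
    decide
  have hgT : g ∉ T := fun h0 => h.ne g h0 hug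
  have hval : ∀ v, v ≠ g → c₁ v = 0 ∨ c₁ v = u v := by
    intro v hv
    have hsv : c₁ v + c₂ v = u v := congrFun hs v
    rcases hd v hv with h1 | h1
    · exact Or.inl h1
    · right
      rw [← hsv, h1, add_zero]
  have hue : (c₁ e).1 = 0 := by
    by_cases hge : e = g
    · rw [hge, hg1]
      rfl
    · rcases hval e hge with h1 | h1
      · rw [h1]
        rfl
      · rw [h1, h.root]
        rfl
  have hsupp : ∀ v, v ∉ insert g T → tt H c₁ v = 0 := by
    intro v hv
    rw [Finset.mem_insert, not_or] at hv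
    rcases hval v hv.1 with h1 | h1
    · exact tt_zero h1
    · have : tt H c₁ v = tt H u v := by
        unfold tt
        rw [h1]
      rw [this, h.tout v hv.2]
  have hcg : tt H c₁ g = 1 := by
    unfold tt
    rw [hg1]
    simp [z]
  obtain ⟨p1, p2⟩ := rep C hc₁ hue (insert g T) hsupp
  rw [Finset.sum_insert hgT, hcg] at p2
  have p1' : ∀ w, (c₁ w).1 = M w g + ∑ x ∈ T, M w x * tt H c₁ x := by
    intro w
    rw [p1 w, Finset.sum_insert hgT, hcg, mul_one]
  refine ⟨c₁, hc₁, hg1, hval, hgT, tt H c₁, ?_, ?_, ?_⟩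
  · revert p2
    generalize ∑ j ∈ T, tt H c₁ j = a
    revert a
    decide
  · intro w hw
    rw [add_comm, ← p1' w]
    have hwg : w ≠ g := fun h0 => hgT (h0 ▸ hw)
    rcases hval w hwg with h1 | h1
    · rw [tt_zero h1, h1]
      rfl
    · have : tt H c₁ w = tt H u w := by
        unfold tt
        rw [h1]
      rw [this, h1, h.tin w hw, h.one w hw]
  · intro w hw
    rw [add_comm, ← p1' w]
    by_cases hwg : w = g
    · rw [hwg, hg1]
      rfl
    · rcases hval w hwg with h1 | h1
      · rw [h1]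
        rfl
      · rw [h1, hw]
        rfl

end

end Pool.Agent.H77.Q
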